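import Pool.Agent.Helper44_SIQ.Cpt
import Pool.Agent.Helper59_SIQ.INV
import Pool.Agent.Helper15_SIU.Stmts

/-! SIQ, module NDR (helper79): nondegeneracy, rotation invariant test forms. -/

set_option autoImplicit false

open MeasureTheory Filter Topology

namespace Pool.Agent.SIQ.H79

open Pool.Agent.SIU Pool.Agent.SIQ

/-- `e^{i t}` -/
noncomputable def eit (t : ℝ) : ℂ := Complex.exp (t * Complex.I)

theorem norm_eit (t : ℝ) : ‖eit t‖ = 1 := Complex.norm_exp_ofReal_mul_I t

theorem eit_add (s t : ℝ) : eit (s + t) = eit s * eit t := by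
  unfold eit
  rw [← Complex.exp_add]
  congr 1
  push_cast
  ring

theorem eit_period (t : ℝ) : eit (t + 2 * Real.pi) = eit t := by
  rw [eit_add]
  unfold eit
  rw [show ((2 * Real.pi : ℝ) : ℂ) * Complex.I = 2 * Real.pi * Complex.I by push_cast; ring,
    Complex.exp_two_pi_mul_I, mul_one]

theorem continuous_eit : Continuous eit := by
  unfold eit
  fun_prop

section gen

variable {N k : ℕ}

theorem mulC_app (u : ℂ) (v : Fin N → ℂ) : mulC N u v = u • v := rfl

theorem continuous_mulC : Continuous (fun t : ℝ => mulC N (eit t)) := by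
  have h : (fun t : ℝ => mulC N (eit t)) = fun t =>
      (ContinuousLinearMap.restrictScalarsL ℂ (Fin N → ℂ) (Fin N → ℂ) ℝ ℝ)
        (eit t • ContinuousLinearMap.id ℂ (Fin N → ℂ)) := rfl
  rw [h]
  exact (ContinuousLinearMap.continuous _).comp (continuous_eit.smul continuous_const)

theorem cont_rot2 : Continuous (fun p : Alt N k × ℝ =>
    p.1.compContinuousLinearMap (mulC N (eit p.2))) :=
  (H44.contDiff_compAlt (m := 0)).continuous.comp
    (continuous_fst.prodMk (continuous_mulC.comp continuous_snd))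

theorem cont_rot (b : Alt N k) : Continuous (fun t : ℝ =>
    b.compContinuousLinearMap (mulC N (eit t))) :=
  cont_rot2.comp (continuous_const.prodMk continuous_id)

/-- evaluation -/
noncomputable def evA (v : Fin k → Fin N → ℂ) : Alt N k →L[ℝ] ℝ :=
  (ContinuousMultilinearMap.apply ℝ (fun _ : Fin k => (Fin N → ℂ)) ℝ v).comp
    (ContinuousAlternatingMap.toContinuousMultilinearMapCLM ℝ)

theorem evA_app (v : Fin k → Fin N → ℂ) (b : Alt N k) : evA v b = b v := rfl

/-- the average over the rotations -/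
noncomputable def Pav (b : Alt N k) : Alt N k :=
  (2 * Real.pi)⁻¹ • ∫ t in (0 : ℝ)..(2 * Real.pi), b.compContinuousLinearMap (mulC N (eit t))

theorem Pav_clm (Λ : Alt N k →L[ℝ] ℝ) (b : Alt N k) : Λ (Pav b) =
    (2 * Real.pi)⁻¹ * ∫ t in (0 : ℝ)..(2 * Real.pi),
      Λ (b.compContinuousLinearMap (mulC N (eit t))) := by
  unfold Pav
  rw [map_smul, ← ContinuousLinearMap.intervalIntegral_comp_comm]
  · rfl
  · exact (cont_rot b).intervalIntegrable _ _

theorem Pav_apply (b : Alt N k) (v : Fin k → Fin N → ℂ) : Pav b v =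
    (2 * Real.pi)⁻¹ * ∫ t in (0 : ℝ)..(2 * Real.pi), b (fun i => eit t • v i) := by
  have h := Pav_clm (evA v) b
  rw [evA_app] at h
  rw [h]
  rfl

theorem Pav_rot (b : Alt N k) (u : ℂ) (hu : ‖u‖ = 1) (v : Fin k → Fin N → ℂ) :
    Pav b (fun i => u • v i) = Pav b v := by
  obtain ⟨s, rfl⟩ : ∃ s : ℝ, eit s = u := by
    obtain ⟨s, hs⟩ := (Complex.norm_eq_one_iff u).mp hu
    exact ⟨s, hs⟩
  rw [Pav_apply, Pav_apply]
  congr 1
  have hper : Function.Periodic (fun t => b (fun i => eit t • v i)) (2 * Real.pi) := by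
    intro t
    simp only [eit_period]
  have h1 : ∀ t : ℝ, b (fun i => eit t • eit s • v i) = (fun t => b (fun i => eit t • v i)) (t + s) := by
    intro t
    show b _ = b _
    simp only [smul_smul, ← eit_add]
  rw [intervalIntegral.integral_congr (g := fun t => (fun t => b (fun i => eit t • v i)) (t + s))
    (fun t _ => h1 t)]
  rw [intervalIntegral.integral_comp_add_right (fun t => b (fun i => eit t • v i)) s]
  have h2 := hper.intervalIntegral_add_eq s 0
  rw [zero_add] at h2 ⊢
  rw [← h2]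
  congr 1
  ring

/-- the average as a continuous linear map -/
noncomputable def PavL : Alt N k →L[ℝ] Alt N k where
  toFun := Pav
  map_add' b b' := by
    unfold Pav
    rw [← smul_add, ← intervalIntegral.integral_add ((cont_rot b).intervalIntegrable _ _)
      ((cont_rot b').intervalIntegrable _ _)]
    rfl
  map_smul' t b := by
    unfold Pav
    rw [RingHom.id_apply, smul_comm t, ← intervalIntegral.integral_smul t]
    rfl
  cont := by
    have h := intervalIntegral.continuous_parametric_intervalIntegral_of_continuous'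
      (μ := volume) (f := fun (b : Alt N k) t => b.compContinuousLinearMap (mulC N (eit t)))
      cont_rot2 0 (2 * Real.pi)
    exact h.const_smul ((2 * Real.pi)⁻¹)

theorem PavL_app (b : Alt N k) : PavL b = Pav b := rfl

end gen

theorem inc1_smul (u : ℂ) (w : C3) : inc1 (u • w) = u • inc1 w := map_smul _ _ _

theorem pull_Pav {l : ℕ} (β : E6 → Alt 6 l) (x : C3) :
    Toric.pull X1.σ (fun z => Pav (β z)) x = Pav (Toric.pull X1.σ β x) := by
  rw [pull_sigma1, pull_sigma1]
  ext v
  rw [Pav_apply]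
  show Pav (β (X1.σ x)) (fun i => inc1 (v i)) = _
  rw [Pav_apply]
  congr 1
  refine intervalIntegral.integral_congr fun t _ => ?_
  show β (X1.σ x) (fun i => eit t • inc1 (v i)) = β (X1.σ x) (fun i => inc1 (eit t • v i))
  simp only [inc1_smul]

theorem cont_wedge0 {k l : ℕ} (h5 : ∀ m : WithTop ℕ∞,
    ContDiff ℝ m (fun p : Alt 3 k × Alt 3 l => wedge p.1 p.2)) (a : Alt 3 k) :
    Continuous (fun b : Alt 3 l => wedge a b) := by
  have h : Continuous (fun p : Alt 3 k × Alt 3 l => wedge p.1 p.2) := (h5 1).continuous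
  have h2 : Continuous (fun b : Alt 3 l => (a, b)) := Continuous.prodMk_right a
  have h3 := h.comp' h2
  exact h3

theorem cont_wedge {k l : ℕ} (hwdg : WdgStmt) (a : Alt 3 k) :
    Continuous (fun b : Alt 3 l => wedge a b) :=
  cont_wedge0 (fun m => (hwdg 3 k l).2.2.2.2.1 m) a

/-- the functional `b ↦ (a ∧ b) (stdb)` -/
noncomputable def wf {k l : ℕ} (hwdg : WdgStmt) (a : Alt 3 k) : Alt 3 l →L[ℝ] ℝ where
  toFun b := wedge a b (stdb 3 (k + l))
  map_add' b b' := by
    rw [(hwdg 3 k l).2.1]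
    rfl
  map_smul' t b := by
    rw [((hwdg 3 k l).2.2.1 t a b).2]
    rfl
  cont := by
    exact (evA (stdb 3 (k + l))).continuous.comp (cont_wedge hwdg a)

theorem wf_app {k l : ℕ} (hwdg : WdgStmt) (a : Alt 3 k) (b : Alt 3 l) :
    wf hwdg a b = wedge a b (stdb 3 (k + l)) := rfl

theorem wf_Pav {k l : ℕ} (hkl : k + l = 6) (hwdg : WdgStmt) (hcom : ComStmt) (a : Alt 3 k)
    (ha : ∀ u : ℂ, ‖u‖ = 1 → a.compContinuousLinearMap (mulC 3 u) = a) (b : Alt 3 l) :
    wf hwdg a (Pav b) = wf hwdg a b := by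
  rw [Pav_clm]
  have h : ∀ t : ℝ, wf hwdg a (b.compContinuousLinearMap (mulC 3 (eit t))) = wf hwdg a b := by
    intro t
    rw [wf_app, wf_app]
    have h1 := (hwdg 3 k l).2.2.2.1 3 (mulC 3 (eit t)) a b
    rw [ha _ (norm_eit t)] at h1
    rw [← h1]
    have hc := (hcom k l hkl).2.2 (fun _ => eit t) (wedge a b)
    have h2 : (∏ _j : Fin 3, ‖eit t‖ ^ 2) = 1 := by rw [norm_eit]; simp
    rw [h2, one_mul] at hc
    rw [← hc]
    have h3 : (fun i => rot3 (fun _ => eit t) (stdb 3 (k + l) i)) =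
        fun i => mulC 3 (eit t) (stdb 3 (k + l) i) := by
      funext i
      exact H59.rot3_const _ _
    rw [h3]
    rfl
  simp only [h]
  rw [intervalIntegral.integral_const, sub_zero, smul_eq_mul]
  have : (2 * Real.pi) ≠ 0 := by positivity
  field_simp

theorem act1_smul (c : C3) (u : ℂ) (v : E6) : X1.act c (u • v) = u • X1.act c v := by
  rw [← actL1_apply, ← actL1_apply, map_smul]

theorem vert_smul {z v : E6} (u : ℂ) (h : X1.Vert z v) : X1.Vert z (u • v) := by
  obtain ⟨a, ha⟩ := h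
  refine ⟨fun j => u * a j, fun m => ?_⟩
  show u * v m = _
  rw [ha m, ← mul_assoc, Finset.mul_sum]
  congr 1
  refine Finset.sum_congr rfl fun j _ => ?_
  ring

theorem pav_mem {l : ℕ} (β : X1.Form l) : (fun z => Pav (β.1 z)) ∈ X1.Form l := by
  obtain ⟨hc, hb, h0⟩ := β.2
  refine ⟨(PavL (N := 6) (k := l)).continuous.comp_continuousOn hc, ⟨?_, ?_⟩, ?_⟩
  · intro z hz c hcc v
    show Pav (β.1 (X1.act c z)) _ = Pav (β.1 z) v
    rw [Pav_apply, Pav_apply]
    congr 1
    refine intervalIntegral.integral_congr fun t _ => ?_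
    show β.1 (X1.act c z) (fun i => eit t • X1.act c (v i)) = β.1 z (fun i => eit t • v i)
    simp only [← act1_smul]
    exact hb.1 z hz c hcc (fun i => eit t • v i)
  · intro z hz v i hv
    show Pav (β.1 z) v = 0
    rw [Pav_apply]
    have : ∀ t : ℝ, β.1 z (fun i => eit t • v i) = 0 := fun t =>
      hb.2 z hz (fun i => eit t • v i) i (vert_smul (eit t) hv)
    simp only [this]
    simp
  · intro z hz
    show Pav (β.1 z) = 0
    rw [h0 z hz, ← PavL_app, map_zero]

theorem rot_pull {k : ℕ} {a : E6 → Alt 6 k} (hr : RotInv a) (x : C3) (u : ℂ) (hu : ‖u‖ = 1) :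
    (Toric.pull X1.σ a x).compContinuousLinearMap (mulC 3 u) = Toric.pull X1.σ a x := by
  rw [← H59.pull_rotF]
  rw [pull_sigma1, pull_sigma1]
  ext v
  exact hr (X1.σ x) (sigma1_mem_U x) u hu (fun i => inc1 (v i))

theorem pair_Pav {k l : ℕ} (hkl : k + l = 6) (hwdg : WdgStmt) (hcom : ComStmt)
    {a : E6 → Alt 6 k} (hr : RotInv a) (β : E6 → Alt 6 l) :
    X1.pair a (fun z => Pav (β z)) = X1.pair a β := by
  unfold Toric.pair
  congr 1
  funext x
  rw [pull_Pav]
  exact wf_Pav hkl hwdg hcom (Toric.pull X1.σ a x) (fun u hu => rot_pull hr x u hu) _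

theorem ndr (hndg : NdgStmt) (hwdg : WdgStmt) (hcom : ComStmt) : NdrStmt := by
  intro k l hkl a hca hba hr h z hz
  refine hndg.1 k l hkl a hca hba Set.univ isOpen_univ (fun _ _ _ _ => Set.mem_univ _) ?_ z
    ⟨hz, Set.mem_univ _⟩
  intro β hβ _
  rw [← pair_Pav hkl hwdg hcom hr]
  refine h ⟨fun z => Pav (β.1 z), pav_mem β⟩ ?_ ?_
  · exact (PavL (N := 6) (k := l)).contDiff.comp_contDiffOn hβ
  · intro z _ u hu v
    exact Pav_rot _ u hu v

end Pool.Agent.SIQ.H79
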