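import Pool.Agent.Helper15_SIQ.Stmts
import Pool.Agent.Helper15_SIU.Stmts

/-! SIQ, module STX (helper79): integration by parts. -/

set_option autoImplicit false

open MeasureTheory Filter Topology

namespace Pool.Agent.SIQ.H79

open Pool.Agent.SIU Pool.Agent.SIQ

theorem extDeriv_contOn1 {k : ℕ} {a : E6 → Alt 6 k} (ha : ContDiffOn ℝ 1 a X1.U) :
    ContinuousOn (extDeriv a) X1.U := by
  have h1 : ContinuousOn (fderiv ℝ a) X1.U :=
    ha.continuousOn_fderiv_of_isOpen isOpen_U1 le_rfl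
  have h3 : extDeriv a = fun x =>
      (ContinuousAlternatingMap.alternatizeUncurryFinCLM ℝ (Fin 6 → ℂ) ℝ
        : ((Fin 6 → ℂ) →L[ℝ] Alt 6 k) →L[ℝ] Alt 6 (k + 1)) (fderiv ℝ a x) := by
    funext x
    rfl
  rw [h3]
  exact (ContinuousLinearMap.continuous _).comp_continuousOn h1

/-- the real basis as a sequence -/
noncomputable def bs (j : ℕ) : C3 :=
  if j % 2 = 0 then (fun b : Fin 3 => if (b : ℕ) = j / 2 then (1 : ℂ) else 0)
      else Complex.I • (fun b : Fin 3 => if (b : ℕ) = j / 2 then (1 : ℂ) else 0)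

theorem stdb_eq (m : ℕ) : stdb 3 m = fun i : Fin m => bs (i : ℕ) := rfl

theorem pull_bs {m : ℕ} (ω : E6 → Alt 6 m) (x : C3) :
    Toric.pull X1.σ ω x (stdb 3 m) = ω (X1.σ x) (fun i : Fin m => inc1 (bs (i : ℕ))) := by
  rw [pull_sigma1, stdb_eq]
  rfl

theorem wedge_bs {k l : ℕ} (hwdg : WdgStmt) (a : E6 → Alt 6 k) (b : E6 → Alt 6 l) (x : C3) :
    wedge (Toric.pull X1.σ a x) (Toric.pull X1.σ b x) (stdb 3 (k + l)) =
      wedge (a (X1.σ x)) (b (X1.σ x)) (fun i : Fin (k + l) => inc1 (bs (i : ℕ))) := by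
  rw [pull_sigma1, pull_sigma1, ← (hwdg 6 k l).2.2.2.1 3 (inc1.restrictScalars ℝ) (a (X1.σ x))
      (b (X1.σ x)), stdb_eq]
  rfl

theorem key {k l : ℕ} (hlei : LeiStmt) (hwdg : WdgStmt) (a : E6 → Alt 6 k) (b : E6 → Alt 6 l)
    (x : C3) (ha : DifferentiableAt ℝ a (X1.σ x)) (hb : DifferentiableAt ℝ b (X1.σ x)) :
    Toric.pull X1.σ (extDeriv fun z => wedge (a z) (b z)) x (stdb 3 (k + l + 1)) =
      wedge (Toric.pull X1.σ (extDeriv a) x) (Toric.pull X1.σ b x) (stdb 3 (k + 1 + l)) +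
      (-1) ^ k * wedge (Toric.pull X1.σ a x) (Toric.pull X1.σ (extDeriv b) x)
        (stdb 3 (k + (l + 1))) := by
  rw [pull_bs, wedge_bs hwdg, wedge_bs hwdg]
  exact hlei 6 k l a b (X1.σ x) ha hb (fun j => inc1 (bs j))


theorem stx1 (hprf : PrfStmt) (hbsd : BsdStmt) (k l : ℕ) (hkl : k + 1 + l = 6)
    (a : E6 → Alt 6 k) (b : E6 → Alt 6 l) (ha : ContDiffOn ℝ 1 a X1.U)
    (hba : X1.BasicOn X1.U a) (hb : ContDiffOn ℝ 1 b X1.U) (hbb : X1.BasicOn X1.U b) :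
    Integrable (fun x => wedge (Toric.pull X1.σ (extDeriv a) x) (Toric.pull X1.σ b x)
      (stdb 3 (k + 1 + l))) ∧
    Integrable (fun x => wedge (Toric.pull X1.σ a x) (Toric.pull X1.σ (extDeriv b) x)
      (stdb 3 (k + (l + 1)))) := by
  have hU := isOpen_U1
  have hsat : ∀ w ∈ X1.U, ∀ c : C3, (∀ j, c j ≠ 0) → X1.act c w ∈ X1.U :=
    fun w hw c hc => (act1_mem_U hc w).mpr hw
  have hB := (hbsd 6 3 3 X1 X1.U hU hsat).1
  have hda : X1.BasicOn X1.U (extDeriv a) := hB k a (ha.differentiableOn one_ne_zero) hba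
  have hdb : X1.BasicOn X1.U (extDeriv b) := hB l b (hb.differentiableOn one_ne_zero) hbb
  have hP1 := (hprf (k + 1) l hkl (extDeriv a) b (extDeriv_contOn1 ha) hda hb.continuousOn
    hbb).1
  have hP2 := (hprf k (l + 1) (by omega) a (extDeriv b) ha.continuousOn hba
    (extDeriv_contOn1 hb) hdb).1
  exact ⟨hP1, hP2⟩

theorem hG1 (hwdg : WdgStmt) (k l : ℕ) (a : E6 → Alt 6 k) (b : E6 → Alt 6 l)
    (ha : ContDiffOn ℝ 1 a X1.U) (hb : ContDiffOn ℝ 1 b X1.U) :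
    ContDiffOn ℝ 1 (fun z => wedge (a z) (b z)) X1.U := by
  obtain ⟨-, -, -, -, h5, -, -⟩ := hwdg 6 k l
  have h := (h5 1).comp_contDiffOn (ha.prodMk hb)
  exact h

theorem hG2 (hwdg : WdgStmt) (k l : ℕ) (a : E6 → Alt 6 k) (b : E6 → Alt 6 l)
    (hba : X1.BasicOn X1.U a) (hbb : X1.BasicOn X1.U b) :
    X1.BasicOn X1.U (fun z => wedge (a z) (b z)) := by
  obtain ⟨-, -, -, -, -, -, h7⟩ := hwdg 6 k l
  have h := h7 3 3 X1 X1.U a b hba hbb
  exact h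

theorem hG3 (hstg : StgStmt) (m : ℕ) (hm : m + 1 = 6) (Γ : E6 → Alt 6 m)
    (h1 : ContDiffOn ℝ 1 Γ X1.U) (h2 : X1.BasicOn X1.U Γ) :
    ∫ x, Toric.pull X1.σ (extDeriv Γ) x (stdb 3 (m + 1)) = 0 :=
  hstg m hm Γ h1 h2

theorem hG4 (hstg : StgStmt) (hwdg : WdgStmt) (k l : ℕ) (hkl : k + l + 1 = 6)
    (a : E6 → Alt 6 k) (b : E6 → Alt 6 l) (ha : ContDiffOn ℝ 1 a X1.U)
    (hba : X1.BasicOn X1.U a) (hb : ContDiffOn ℝ 1 b X1.U) (hbb : X1.BasicOn X1.U b)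
    (F : (C3 → ℝ)) (hF : ∀ x, Toric.pull X1.σ (extDeriv fun z => wedge (a z) (b z)) x
      (stdb 3 (k + l + 1)) = F x) :
    ∫ x, F x = 0 := by
  have h := hG3 hstg (k + l) hkl _ (hG1 hwdg k l a b ha hb) (hG2 hwdg k l a b hba hbb)
  rw [← h]
  exact integral_congr_ae (Eventually.of_forall fun x => (hF x).symm)

theorem stx3 {B C : C3 → ℝ} (k : ℕ) (hB : Integrable B) (hC : Integrable C)
    (h0 : ∫ x, (B x + (-1) ^ k * C x) = 0) :
    (∫ x, B x) + (-1) ^ k * ∫ x, C x = 0 := by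
  rw [integral_add hB (hC.const_mul _), integral_const_mul] at h0
  exact h0

theorem stx (hstg : StgStmt) (hlei : LeiStmt) (hprf : PrfStmt) (hbsd : BsdStmt)
    (hwdg : WdgStmt) : StxStmt := by
  intro k l hkl a b ha hba hb hbb
  have hP := stx1 hprf hbsd k l hkl a b ha hba hb hbb
  have hkey := fun x : C3 => key hlei hwdg a b x
      ((ha.differentiableOn one_ne_zero).differentiableAt (isOpen_U1.mem_nhds (sigma1_mem_U x)))
      ((hb.differentiableOn one_ne_zero).differentiableAt (isOpen_U1.mem_nhds (sigma1_mem_U x)))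
  have hS := hG4 hstg hwdg k l (by omega) a b ha hba hb hbb _ hkey
  unfold Toric.pair
  exact stx3 k hP.1 hP.2 hS

end Pool.Agent.SIQ.H79
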